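import Pool.Agent.N754.GF.Sq

/-! The derivation dual to a unit of a function field (project GF, MP_70ba79_ag). -/

set_option autoImplicit false

open MvPolynomial FF Pool.Agent.W603.LV Filter

namespace Pool.Agent.N650.GF

open Pool.Agent.N754.GF

variable {k K : Type} [Field k] [Field K] [Algebra k K] [CharZero k] [IsAlgClosed k] [IsFF k K]

/-- lower bound of the order of the derivative of a function of order zero -/
theorem ord_der_reg (P : Place k K) {δ : Derivation k K K} (hδ : δ ≠ 0) {f : K}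
    (hf : P.ord f = 0) (h : δ f ≠ 0) : vo P δ ≤ P.ord (δ f) := by
  obtain ⟨g, hg, e⟩ := der_mul P (ord_unif P) hδ (f := f) (Or.inr hf.ge)
  have hg0 : g ≠ 0 := by
    rintro rfl
    rw [mul_zero] at e
    exact h e
  have h1 := der_pi_ne_zero hδ P (ord_unif P)
  rw [e, P.ord_mul h1 hg0]
  have h2 := hg.resolve_left hg0
  unfold vo
  omega

theorem vo_one (P : Place k K) {δ : Derivation k K K} (hδ : δ ≠ 0) {w : K} (hw : δ w = w)
    (h : P.ord w ≠ 0) : vo P δ = 1 := by
  have h1 := (ord_der P hδ h).2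
  rw [hw] at h1
  omega

theorem vo_nonpos (P : Place k K) {δ : Derivation k K K} (hδ : δ ≠ 0) {w : K} (hw : δ w = w)
    (hc : ∀ c : k, w ≠ algebraMap k K c) (h : P.ord w = 0) : vo P δ ≤ 0 := by
  obtain ⟨c, hc1⟩ := exists_const P (f := w) (Or.inr h.ge)
  have h0 : w - algebraMap k K c ≠ 0 := sub_ne_zero.2 (hc c)
  have h1 := hc1.resolve_left h0
  have h2 := (ord_der P hδ (f := w - algebraMap k K c) (by omega)).2
  rw [map_sub, hw, Derivation.map_algebraMap, sub_zero, h] at h2
  omega

theorem der : S_DER := by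
  classical
  intro k K _ _ _ _ _ _ S w hw0 hwS hwc
  obtain ⟨D, hD⟩ := exists_der (k := k) (K := K)
  have hDw : D w ≠ 0 := by
    intro h
    obtain ⟨c, hc⟩ := const_of_der hD h
    exact hwc c hc
  obtain ⟨δ, hδdef⟩ : ∃ δ : Derivation k K K, δ = (w / D w) • D := ⟨_, rfl⟩
  have hδw : δ w = w := by
    rw [hδdef, Derivation.coe_smul, Pi.smul_apply, smul_eq_mul]
    field_simp
  have hδ : δ ≠ 0 := by
    intro h
    rw [h] at hδw
    exact hw0 (by simpa using hδw.symm)
  -- the order of the derivation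
  have hv1 : ∀ P ∉ S, vo P δ ≤ 0 := fun P hP => vo_nonpos P hδ hδw hwc (hwS P hP)
  have hv2 : ∀ P : Place k K, vo P δ ≤ 1 := by
    intro P
    by_cases h : P.ord w = 0
    · have := vo_nonpos P hδ hδw hwc h
      omega
    · exact (vo_one P hδ hδw h).le
  have hsum : ∀ T : Finset (Place k K), (∀ P, vo P δ ≠ 0 → P ∈ T) → S ⊆ T →
      ∑ P ∈ T, max (-vo P δ) 0 ≤ euler S := by
    intro T hT hST
    have h1 := canDeg_finset hδ T hT
    have h2 : ∑ P ∈ T, max (-vo P δ) 0 ≤ ∑ P ∈ T, (-vo P δ + if P ∈ S then 1 else 0) := by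
      refine Finset.sum_le_sum fun P _ => ?_
      by_cases hP : P ∈ S
      · rw [if_pos hP]
        have := hv2 P
        omega
      · rw [if_neg hP]
        have := hv1 P hP
        omega
    refine h2.trans ?_
    rw [Finset.sum_add_distrib, Finset.sum_neg_distrib, h1, ← Finset.sum_filter,
      Finset.filter_mem_eq_inter, Finset.inter_eq_right.2 hST, Finset.sum_const, neg_neg, euler]
    simp
  set T0 : Finset (Place k K) := (vo_finite hδ).toFinset ∪ S with hT0
  have hT0v : ∀ P : Place k K, vo P δ ≠ 0 → P ∈ T0 := by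
    intro P hP
    simp [hT0, hP]
  have hT0S : S ⊆ T0 := Finset.subset_union_right
  have hloc : ∀ (P : Place k K) (f : K), -P.ord (δ f) ≤ 2 * max (-P.ord f) 0 + max (-vo P δ) 0 := by
    intro P f
    by_cases h0 : P.ord f = 0
    · by_cases h1 : δ f = 0
      · rw [h1, P.ord_zero, h0]
        omega
      · have := ord_der_reg P hδ h0 h1
        rw [h0]
        omega
    · have := (ord_der P hδ h0).2
      omega
  refine ⟨δ, T0.filter fun P => P ∉ S ∧ vo P δ < 0, hδw, ?_, fun x hx => const_of_der hδ hx,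
    ?_, ?_, ?_⟩
  · have h1 := hsum T0 hT0v hT0S
    refine le_trans ?_ h1
    have h2 : ((T0.filter fun P => P ∉ S ∧ vo P δ < 0).card : ℤ) =
        ∑ P ∈ T0, if P ∉ S ∧ vo P δ < 0 then (1 : ℤ) else 0 := by
      rw [← Finset.sum_filter, Finset.sum_const, nsmul_eq_mul, mul_one]
    rw [h2]
    refine Finset.sum_le_sum fun P _ => ?_
    split_ifs with h3
    · have := h3.2
      omega
    · exact le_max_right _ _
  · intro P hP hPZ f hf
    have hv : vo P δ = 0 := by
      by_contra h
      apply hPZ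
      rw [Finset.mem_filter]
      have := hv1 P hP
      exact ⟨hT0v P h, hP, by omega⟩
    rcases hf with hf | hf
    · left
      rw [hf, map_zero]
    · right
      have := (ord_der P hδ (f := f) (by omega)).2
      omega
  · intro f
    obtain ⟨T1, hT1⟩ := exists_supp (k := k) (Finset.univ : Finset (Fin 2)) ![f, δ f]
    have h1 : ∀ P : Place k K, P.ord f ≠ 0 → P ∈ T1 ∪ T0 := fun P hP =>
      Finset.mem_union_left _ (hT1 0 (Finset.mem_univ _) P hP)
    have h2 : ∀ P : Place k K, P.ord (δ f) ≠ 0 → P ∈ T1 ∪ T0 := fun P hP =>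
      Finset.mem_union_left _ (hT1 1 (Finset.mem_univ _) P hP)
    have h3 := hsum (T1 ∪ T0) (fun P hP => Finset.mem_union_right _ (hT0v P hP))
      (hT0S.trans Finset.subset_union_right)
    rw [hgt_finset _ _ h1, hgt_finset _ _ h2, Finset.mul_sum]
    refine le_trans ?_ (add_le_add_right h3 _)
    rw [← Finset.sum_add_distrib]
    refine Finset.sum_le_sum fun P _ => ?_
    have := hloc P f
    omega
  · intro u hu huS
    obtain ⟨T1, hT1⟩ := exists_supp (k := k) (Finset.univ : Finset (Fin 1)) ![δ u / u]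
    have h1 : ∀ P : Place k K, P.ord (δ u / u) ≠ 0 → P ∈ T1 ∪ T0 := fun P hP =>
      Finset.mem_union_left _ (hT1 0 (Finset.mem_univ _) P hP)
    have hST : S ⊆ T1 ∪ T0 := hT0S.trans Finset.subset_union_right
    have h3 := hsum (T1 ∪ T0) (fun P hP => Finset.mem_union_right _ (hT0v P hP)) hST
    rw [hgt_finset _ _ h1]
    have h4 : ((S.card : ℕ) : ℤ) = ∑ P ∈ T1 ∪ T0, if P ∈ S then (1 : ℤ) else 0 := by
      rw [← Finset.sum_filter, Finset.filter_mem_eq_inter, Finset.inter_eq_right.2 hST,
        Finset.sum_const, nsmul_eq_mul, mul_one]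
    rw [h4]
    refine le_trans ?_ (add_le_add_left h3 _)
    rw [← Finset.sum_add_distrib]
    refine Finset.sum_le_sum fun P _ => ?_
    by_cases h5 : δ u = 0
    · rw [h5, zero_div, P.ord_zero]
      split_ifs <;> omega
    rw [P.ord_div h5 hu]
    by_cases h6 : P.ord u = 0
    · have h7 := ord_der_reg P hδ h6 h5
      rw [h6]
      split_ifs <;> omega
    · have hP : P ∈ S := by
        by_contra hP
        exact h6 (huS P hP)
      rw [if_pos hP]
      have := (ord_der P hδ h6).2
      omega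

end Pool.Agent.N650.GF
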